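import Mathlib

set_option autoImplicit false

/-!
# Subdividing every arc: the core of the counterexample

Vertices are lists over `Fin (m+2)` (the last move is the head of the list), `T_a` is the set of
lists having `a` as a suffix.  The digraph is assumed to satisfy:

* `P1`: `T_a` is entered only at `a`;
* `P2`: an arc leaving `T_{c::v}` and staying in `T_v` goes to the next sibling `(c+1)::v`;
* `P2'`: no arc from `T_v` goes to `v`;
* `P3`: only one arc goes from `T_{0::v}` to `1::v` (the narrow channel);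
* `P4`: the out-neighbours of an internal node are its children.

`LV a S` is the set of arcs of the subdivided digraph with tail in `S` that are not
(head in `S` and path inside `T_a`).  The two statements proved by a simultaneous induction on
the tree are

* `Astar`: if the node `a` is a branch vertex in `S` and `S` lies in `T_a`, then `k ≤ |LV a S|`;
* `Bstar`: if `S` contains a child of `v`, then `k - 1 ≤ |LV v S|`.

`final` derives a contradiction from minimum out-degree at least three.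
-/

namespace Pool.Agent.Lib_helper57.Subdiv

open Finset

/-- A digraph `A` on (some) lists over `Fin (m+2)`, with the tree properties used in the
counterexample, together with a system of branch vertices `φ` and internally disjoint paths `p`
of length at least two, indexed by the arcs of a digraph `E` on `Fin n`. -/
structure Cfg (m n : ℕ) where
  V : List (Fin (m+2)) → Prop
  A : List (Fin (m+2)) → List (Fin (m+2)) → Prop
  L : ℕ
  hL : ∀ x, V x → x.length < L
  P1 : ∀ a x y, V x → V y → A x y → a <:+ y → ¬ a <:+ x → y = a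
  P2 : ∀ (c : Fin (m+2)) v x y, V x → V y → A x y → (c :: v) <:+ x → v <:+ y →
    ¬ (c :: v) <:+ y → y = (c+1) :: v
  P2' : ∀ v x y, V x → V y → A x y → v <:+ x → y ≠ v
  P3 : ∀ v x x', V x → V x' → A x (1 :: v) → A x' (1 :: v) → (0 :: v) <:+ x →
    (0 :: v) <:+ x' → x = x'
  P4 : ∀ v x z, V v → V x → V z → A v x → v <:+ z → z ≠ v → ∃ c, x = c :: v
  E : Fin n → Fin n → Prop
  φ : Fin n → List (Fin (m+2))
  φinj : Function.Injective φ
  len : Fin n → Fin n → ℕ
  p : Fin n → Fin n → ℕ → List (Fin (m+2))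
  hV : ∀ s t i, E s t → i ≤ len s t → V (p s t i)
  hlen : ∀ s t, E s t → 2 ≤ len s t
  h0 : ∀ s t, E s t → p s t 0 = φ s
  h1 : ∀ s t, E s t → p s t (len s t) = φ t
  hA : ∀ s t i, E s t → i < len s t → A (p s t i) (p s t (i+1))
  hint : ∀ s t i c, E s t → 0 < i → i < len s t → p s t i ≠ φ c
  hdisj : ∀ a b c d i j, E a b → E c d → 0 < i → i < len a b → 0 < j → j < len c d →
      p a b i = p c d j → a = c ∧ b = d

variable {m n : ℕ} (C : Cfg m n)

/-- vertices on the paths of the `h`-arcs with tail in `K` -/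
def FK (h : Fin n → Fin n → Prop) (K : Finset (Fin n)) (x : List (Fin (m+2))) : Prop :=
  ∃ s ∈ K, ∃ t, h s t ∧ ∃ i ≤ C.len s t, C.p s t i = x

/-- `K` is a minimal nonempty `h`-closed set in which every vertex has an out-arc. -/
structure Comp (h : Fin n → Fin n → Prop) (K : Finset (Fin n)) : Prop where
  hE : ∀ s t, h s t → C.E s t
  ne : K.Nonempty
  cl : ∀ s ∈ K, ∀ t, h s t → t ∈ K
  out : ∀ s ∈ K, ∃ t, h s t
  mn : ∀ X ⊆ K, X.Nonempty → (∀ s ∈ X, ∀ t, h s t → t ∈ X) → X = K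

/-- the `T_v` facts -/
structure Top (h : Fin n → Fin n → Prop) (K : Finset (Fin n)) (v : List (Fin (m+2))) : Prop where
  sub : ∀ x, FK C h K x → v <:+ x
  nv : ¬ FK C h K v
  ch : ∀ c, FK C h K (c :: v)
  nB : ∀ s, C.φ s ≠ v
  ent : ∀ s t, C.E s t → ∀ i < C.len s t, ¬ v <:+ C.p s t i → v <:+ C.p s t (i+1) →
      C.p s t (i+1) = v ∧ i + 1 < C.len s t ∧ t ∈ K ∧ ∃ c, C.φ t = c :: v

/-- all vertices of the path lie in `T_a` -/
def inside (a : List (Fin (m+2))) (s t : Fin n) : Prop := ∀ i ≤ C.len s t, a <:+ C.p s t i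

open Classical in
/-- the arcs leaving `S` with respect to `T_a` -/
noncomputable def LV (a : List (Fin (m+2))) (S : Finset (Fin n)) : Finset (Fin n × Fin n) :=
  univ.filter (fun q => q.1 ∈ S ∧ C.E q.1 q.2 ∧ ¬ (q.2 ∈ S ∧ inside C a q.1 q.2))

lemma mem_LV (a : List (Fin (m+2))) (S : Finset (Fin n)) (q : Fin n × Fin n) :
    q ∈ LV C a S ↔ q.1 ∈ S ∧ C.E q.1 q.2 ∧ ¬ (q.2 ∈ S ∧ inside C a q.1 q.2) := by
  classical
  simp [LV]

lemma exists_comp (h : Fin n → Fin n → Prop) (hE : ∀ s t, h s t → C.E s t) (S : Finset (Fin n))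
    (hne : S.Nonempty) (hcl : ∀ s ∈ S, ∀ t, h s t → t ∈ S) (hout : ∀ s ∈ S, ∃ t, h s t) :
    ∃ K ⊆ S, Comp C h K := by
  classical
  let T := S.powerset.filter (fun X => X.Nonempty ∧ ∀ s ∈ X, ∀ t, h s t → t ∈ X)
  have hT : T.Nonempty := ⟨S, by simp only [T, mem_filter, mem_powerset]; exact ⟨subset_rfl, hne, hcl⟩⟩
  obtain ⟨K, hK, hmin⟩ := Finset.exists_min_image T Finset.card hT
  simp only [T, mem_filter, mem_powerset] at hK
  refine ⟨K, hK.1, hE, hK.2.1, hK.2.2, fun s hs => hout s (hK.1 hs), ?_⟩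
  intro X hX hXn hXc
  apply Finset.eq_of_subset_of_card_le hX
  apply hmin
  simp only [T, mem_filter, mem_powerset]
  exact ⟨hX.trans hK.1, hXn, hXc⟩

variable {C}

lemma SC {h : Fin n → Fin n → Prop} {K : Finset (Fin n)} (hK : Comp C h K)
    (Y : List (Fin (m+2)) → Prop)
    (hY : ∀ s ∈ K, ∀ t, h s t → ∀ i < C.len s t, Y (C.p s t i) → Y (C.p s t (i+1))) :
    (∀ x, FK C h K x → ¬ Y x) ∨ (∀ x, FK C h K x → Y x) := by
  classical
  have key : ∀ s ∈ K, ∀ t, h s t → ∀ i, Y (C.p s t i) →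
      ∀ j, i ≤ j → j ≤ C.len s t → Y (C.p s t j) := by
    intro s hs t hst i hi j hij
    induction j, hij using Nat.le_induction with
    | base => intro _; exact hi
    | succ j hj ih => intro hjl; exact hY s hs t hst j (by omega) (ih (by omega))
  by_cases hX : (K.filter (fun s => Y (C.φ s))).Nonempty
  · right
    have hXK : K.filter (fun s => Y (C.φ s)) = K := by
      apply hK.mn _ (Finset.filter_subset _ _) hX
      intro s hs t hst
      rw [Finset.mem_filter] at hs ⊢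
      refine ⟨hK.cl s hs.1 t hst, ?_⟩
      rw [← C.h1 s t (hK.hE s t hst)]
      refine key s hs.1 t hst 0 ?_ _ (Nat.zero_le _) le_rfl
      rw [C.h0 s t (hK.hE s t hst)]; exact hs.2
    rintro x ⟨s, hs, t, hst, i, hi, rfl⟩
    refine key s hs t hst 0 ?_ _ (Nat.zero_le _) hi
    rw [C.h0 s t (hK.hE s t hst)]
    have : s ∈ K.filter (fun s => Y (C.φ s)) := by rw [hXK]; exact hs
    exact (Finset.mem_filter.1 this).2
  · left
    rintro x ⟨s, hs, t, hst, i, hi, rfl⟩ hYx
    apply hX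
    refine ⟨t, Finset.mem_filter.2 ⟨hK.cl s hs t hst, ?_⟩⟩
    rw [← C.h1 s t (hK.hE s t hst)]
    exact key s hs t hst i hYx _ hi le_rfl

lemma FK_V {h : Fin n → Fin n → Prop} {K : Finset (Fin n)} (hK : Comp C h K)
    {x : List (Fin (m+2))} (hx : FK C h K x) : C.V x := by
  obtain ⟨s, hs, t, hst, i, hi, rfl⟩ := hx
  exact C.hV s t i (hK.hE s t hst) hi

lemma FK_phi {h : Fin n → Fin n → Prop} {K : Finset (Fin n)} (hK : Comp C h K)
    {s : Fin n} (hs : s ∈ K) : FK C h K (C.φ s) := by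
  obtain ⟨t, ht⟩ := hK.out s hs
  exact ⟨s, hs, t, ht, 0, Nat.zero_le _, C.h0 s t (hK.hE s t ht)⟩

lemma mem_of_FK_phi {h : Fin n → Fin n → Prop} {K : Finset (Fin n)} (hK : Comp C h K)
    {r : Fin n} (hr : FK C h K (C.φ r)) : r ∈ K := by
  obtain ⟨s, hs, t, hst, i, hi, he⟩ := hr
  have hE := hK.hE s t hst
  rcases Nat.eq_zero_or_pos i with h0 | h0
  · subst h0
    rw [C.h0 s t hE] at he
    rw [← C.φinj he]; exact hs
  · rcases Nat.lt_or_ge i (C.len s t) with h1 | h1
    · exact absurd he (C.hint s t i r hE h0 h1)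
    · have : i = C.len s t := le_antisymm hi h1
      subst this
      rw [C.h1 s t hE] at he
      rw [← C.φinj he]; exact hK.cl s hs t hst

/-- an interior vertex of a path which lies on `F_K` belongs to a path of `K` -/
lemma arc_of_FK {h : Fin n → Fin n → Prop} {K : Finset (Fin n)} (hK : Comp C h K)
    {s t : Fin n} (hE : C.E s t) {i : ℕ} (h0 : 0 < i) (h1 : i < C.len s t)
    (hF : FK C h K (C.p s t i)) : s ∈ K ∧ h s t := by
  obtain ⟨s1, hs1, t1, hst1, j, hj, he⟩ := hF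
  have hE1 := hK.hE s1 t1 hst1
  rcases Nat.eq_zero_or_pos j with hj0 | hj0
  · subst hj0
    rw [C.h0 s1 t1 hE1] at he
    exact absurd he.symm (C.hint s t i s1 hE h0 h1)
  · rcases Nat.lt_or_ge j (C.len s1 t1) with hj1 | hj1
    · obtain ⟨e1, e2⟩ := C.hdisj s1 t1 s t j i hE1 hE hj0 hj1 h0 h1 he
      subst e1; subst e2
      exact ⟨hs1, hst1⟩
    · have : j = C.len s1 t1 := le_antisymm hj hj1
      subst this
      rw [C.h1 s1 t1 hE1] at he
      exact absurd he.symm (C.hint s t i t1 hE h0 h1)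

lemma suffix_cons_of_proper {α : Type} {v x : List α} (h : v <:+ x) (hne : x ≠ v) :
    ∃ c, (c :: v) <:+ x := by
  obtain ⟨w, rfl⟩ := h
  rcases List.eq_nil_or_concat w with rfl | ⟨w', c, rfl⟩
  · exact absurd (by simp) hne
  · exact ⟨c, w', by simp⟩

lemma suffix_antisymm {α : Type} {v x : List α} (h : v <:+ x) (h' : x <:+ v) : v = x :=
  h.eq_of_length (le_antisymm h.length_le h'.length_le)

lemma suffix_comp {α : Type} {u v x : List α} (h : u <:+ x) (h' : v <:+ x)
    (hl : u.length ≤ v.length) : u <:+ v :=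
  List.suffix_of_suffix_length_le h h' hl

lemma suffix_eq_of_length {α : Type} {u v x : List α} (h : u <:+ x) (h' : v <:+ x)
    (hl : u.length = v.length) : u = v :=
  suffix_antisymm (suffix_comp h h' hl.le) (suffix_comp h' h hl.ge)

lemma exists_top {h : Fin n → Fin n → Prop} {K : Finset (Fin n)} (hK : Comp C h K)
    (a : List (Fin (m+2))) (ha : ∀ x, FK C h K x → a <:+ x) :
    ∃ v, a <:+ v ∧ (∀ x, FK C h K x → v <:+ x) ∧
      ∀ c : Fin (m+2), ¬ ∀ x, FK C h K x → (c :: v) <:+ x := by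
  classical
  obtain ⟨s0, hs0⟩ := hK.ne
  have hx0 := FK_phi hK hs0
  set x0 := C.φ s0 with hx0def
  let Q := x0.tails.toFinset.filter (fun v => ∀ x, FK C h K x → v <:+ x)
  have memQ : ∀ v, v ∈ Q ↔ v <:+ x0 ∧ ∀ x, FK C h K x → v <:+ x := by
    intro v; simp [Q]
  have hQ : Q.Nonempty := ⟨a, (memQ a).2 ⟨ha x0 hx0, ha⟩⟩
  obtain ⟨v, hv, hmax⟩ := Finset.exists_max_image Q List.length hQ
  have hv' := (memQ v).1 hv
  refine ⟨v, ?_, hv'.2, ?_⟩
  · exact suffix_comp (ha x0 hx0) hv'.1 (hmax a ((memQ a).2 ⟨ha x0 hx0, ha⟩))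
  · intro c hc
    have := hmax (c :: v) ((memQ _).2 ⟨hc x0 hx0, hc⟩)
    simp at this

lemma exists_step (P : ℕ → Prop) (N : ℕ) (h0 : ¬ P 0) (hN : P N) :
    ∃ i < N, ¬ P i ∧ P (i+1) := by
  induction N with
  | zero => exact absurd hN h0
  | succ N ih =>
    by_cases h : P N
    · obtain ⟨i, hi, h1, h2⟩ := ih h
      exact ⟨i, by omega, h1, h2⟩
    · exact ⟨N, by omega, h, hN⟩

lemma fin_all (P : Fin (m+2) → Prop) (c0 : Fin (m+2)) (h0 : P c0)
    (hs : ∀ c, P c → P (c+1)) : ∀ c, P c := by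
  have h1 : ∀ j : ℕ, P (c0 + Fin.ofNat (m+2) j) := by
    intro j
    induction j with
    | zero => simpa using h0
    | succ j ih =>
      have := hs _ ih
      have e : c0 + Fin.ofNat (m+2) j + 1 = c0 + Fin.ofNat (m+2) (j+1) := by
        rw [add_assoc]
        congr 1
        apply Fin.ext
        simp [Fin.val_add, Fin.ofNat]
      rwa [e] at this
  intro c
  have := h1 (c - c0).val
  have e : Fin.ofNat (m+2) (c - c0).val = c - c0 := by
    apply Fin.ext
    simp [Fin.ofNat, Nat.mod_eq_of_lt]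
  rwa [e, add_sub_cancel] at this

lemma fact {h : Fin n → Fin n → Prop} {K : Finset (Fin n)} (hK : Comp C h K)
    (hdeg : ∀ s, ∃ t, C.E s t)
    (a : List (Fin (m+2))) (ha : ∀ x, FK C h K x → a <:+ x) :
    ∃ v, a <:+ v ∧ Top C h K v := by
  obtain ⟨v, hav, hsub, hmax⟩ := exists_top hK a ha
  -- arcs of `F_K` are arcs of `A`
  have hnv : ¬ FK C h K v := by
    intro hv
    have hsc := SC hK (fun x => x ≠ v) (by
      intro s hs t hst i hi _
      have hE := hK.hE s t hst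
      refine C.P2' v (C.p s t i) _ (C.hV s t i hE hi.le) (C.hV s t (i+1) hE hi) (C.hA s t i hE hi) ?_
      exact hsub _ ⟨s, hs, t, hst, i, hi.le, rfl⟩)
    rcases hsc with hsc | hsc
    · obtain ⟨s, hs⟩ := hK.ne
      obtain ⟨t, hst⟩ := hK.out s hs
      have hE := hK.hE s t hst
      have hl := C.hlen s t hE
      have e0 := hsc _ ⟨s, hs, t, hst, 0, by omega, rfl⟩
      have e1 := hsc _ ⟨s, hs, t, hst, 0+1, by omega, rfl⟩
      simp only [ne_eq, not_not] at e0 e1
      refine C.P2' v (C.p s t 0) _ (C.hV s t 0 hE (by omega)) (C.hV s t (0+1) hE (by omega))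
        (C.hA s t 0 hE (by omega)) ?_ e1
      rw [e0]
    · exact hsc v hv rfl
  have hstep : ∀ c : Fin (m+2), (∃ x, FK C h K x ∧ (c :: v) <:+ x) → FK C h K ((c+1) :: v) := by
    intro c ⟨x, hx, hcx⟩
    by_contra hcon
    have hsc := SC hK (fun x => (c :: v) <:+ x) (by
      intro s hs t hst i hi hY
      have hE := hK.hE s t hst
      by_contra hnY
      have := C.P2 c v (C.p s t i) _ (C.hV s t i hE hi.le) (C.hV s t (i+1) hE hi)
        (C.hA s t i hE hi) hY (hsub _ ⟨s, hs, t, hst, i+1, hi, rfl⟩) hnY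
      exact hcon ⟨s, hs, t, hst, i+1, hi, this⟩)
    rcases hsc with hsc | hsc
    · exact hsc x hx hcx
    · exact hmax c hsc
  have hch : ∀ c, FK C h K (c :: v) := by
    obtain ⟨s0, hs0⟩ := hK.ne
    have hx0 := FK_phi hK hs0
    obtain ⟨c0, hc0⟩ := suffix_cons_of_proper (hsub _ hx0) (fun e => hnv (e ▸ hx0))
    exact fin_all (fun c => FK C h K (c :: v)) (c0 + 1) (hstep c0 ⟨_, hx0, hc0⟩)
      (fun c hc => hstep c ⟨_, hc, List.suffix_rfl⟩)
  have hchild : ∀ x, C.V v → C.V x → C.A v x → ∃ c, x = c :: v := by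
    intro x hVv hVx hAx
    exact C.P4 v x _ hVv hVx (FK_V hK (hch 0)) hAx ⟨[0], rfl⟩ (by simp)
  have hnB : ∀ s, C.φ s ≠ v := by
    intro s hs
    obtain ⟨t, hst⟩ := hdeg s
    have hl := C.hlen s t hst
    have e0 : C.p s t 0 = v := by rw [C.h0 s t hst, hs]
    have hA := C.hA s t 0 hst (by omega)
    rw [e0] at hA
    obtain ⟨c, hc⟩ := hchild _ (e0 ▸ C.hV s t 0 hst (by omega)) (C.hV s t (0+1) hst (by omega)) hA
    have hF := hch c
    rw [← hc] at hF
    have := arc_of_FK hK hst (by omega) (by omega) hF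
    apply hnv
    rw [← hs]
    exact FK_phi hK this.1
  refine ⟨v, hav, hsub, hnv, hch, hnB, ?_⟩
  intro s t hE i hi hn hy
  have hl := C.hlen s t hE
  have e := C.P1 v (C.p s t i) _ (C.hV s t i hE hi.le) (C.hV s t (i+1) hE hi) (C.hA s t i hE hi) hy hn
  have hlt : i + 1 < C.len s t := by
    rcases Nat.lt_or_ge (i+1) (C.len s t) with h1 | h1
    · exact h1
    · exfalso
      have : i + 1 = C.len s t := le_antisymm hi h1
      rw [this, C.h1 s t hE] at e
      exact hnB t e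
  have hA := C.hA s t (i+1) hE hlt
  rw [e] at hA
  obtain ⟨c, hc⟩ := hchild _ (e ▸ C.hV s t (i+1) hE hi) (C.hV s t (i+1+1) hE hlt) hA
  have hF := hch c
  rw [← hc] at hF
  have hend : i + 1 + 1 = C.len s t := by
    rcases Nat.lt_or_ge (i+1+1) (C.len s t) with h1 | h1
    · exfalso
      have := arc_of_FK hK hE (by omega) h1 hF
      apply hnv
      exact ⟨s, this.1, t, this.2, i+1, hi, e⟩
    · exact le_antisymm hlt h1
  rw [hend, C.h1 s t hE] at hc hF
  exact ⟨e, hlt, mem_of_FK_phi hK hF, c, hc⟩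

/-- an arc counted in `LV (c :: v) S_c` which is `(v,S)`-internal crosses to the next sibling -/
lemma cross {v : List (Fin (m+2))} {c : Fin (m+2)} {S : Finset (Fin n)}
    {s t : Fin n} (hE : C.E s t) (hs : (c :: v) <:+ C.φ s)
    (hin : inside C v s t)
    (hn : ¬ ((t ∈ S ∧ (c :: v) <:+ C.φ t) ∧ inside C (c :: v) s t)) (htS : t ∈ S) :
    ∃ i < C.len s t, (c :: v) <:+ C.p s t i ∧ C.p s t (i+1) = (c+1) :: v := by
  have hex : ∃ j ≤ C.len s t, ¬ (c :: v) <:+ C.p s t j := by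
    by_contra hcon
    push Not at hcon
    apply hn
    refine ⟨⟨htS, ?_⟩, hcon⟩
    have := hcon _ le_rfl
    rwa [C.h1 s t hE] at this
  obtain ⟨j, hj, hnj⟩ := hex
  obtain ⟨i, hi, h1, h2⟩ := exists_step (fun i => ¬ (c :: v) <:+ C.p s t i) j
    (by rw [C.h0 s t hE]; exact not_not.2 hs) hnj
  simp only [not_not] at h1
  refine ⟨i, by omega, h1, ?_⟩
  exact C.P2 c v _ _ (C.hV s t i hE (by omega)) (C.hV s t (i+1) hE (by omega))
    (C.hA s t i hE (by omega)) h1 (hin _ (by omega)) h2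

lemma Bstar (k : ℕ) (v : List (Fin (m+2)))
    (hAs : ∀ c : Fin (m+2), ∀ S : Finset (Fin n), (∃ s ∈ S, C.φ s = c :: v) →
      (∀ s ∈ S, (c :: v) <:+ C.φ s) → k ≤ (LV C (c :: v) S).card)
    (S : Finset (Fin n)) (hS : ∃ s ∈ S, ∃ c, C.φ s = c :: v) :
    k ≤ (LV C v S).card + 1 := by
  classical
  have key : ∀ c : Fin (m+2), (∃ s ∈ S, C.φ s = c :: v) →
      (k ≤ (LV C v S).card + 1) ∨ (c ≠ 0 ∧ ∃ s ∈ S, C.φ s = (c+1) :: v) := by
    intro c ⟨s0, hs0, hs0c⟩
    by_cases hgoal : k ≤ (LV C v S).card + 1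
    · exact Or.inl hgoal
    right
    have hX := hAs c (S.filter (fun s => (c :: v) <:+ C.φ s))
      ⟨s0, by simp [hs0, hs0c], hs0c⟩ (by intro s hs; exact (mem_filter.1 hs).2)
    set X := LV C (c :: v) (S.filter (fun s => (c :: v) <:+ C.φ s)) with hXdef
    have hsplit := Finset.card_filter_add_card_filter_not (s := X) (fun q => q.2 ∈ S ∧ inside C v q.1 q.2)
    have hsub : X.filter (fun q => ¬ (q.2 ∈ S ∧ inside C v q.1 q.2)) ⊆ LV C v S := by
      intro q hq
      rw [mem_filter, hXdef, mem_LV, mem_filter] at hq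
      rw [mem_LV]
      exact ⟨hq.1.1.1, hq.1.2.1, hq.2⟩
    have hle := Finset.card_le_card hsub
    have h2 : 1 < (X.filter (fun q => q.2 ∈ S ∧ inside C v q.1 q.2)).card := by omega
    obtain ⟨q, hq, q', hq', hne⟩ := Finset.one_lt_card.1 h2
    rw [mem_filter, hXdef, mem_LV, mem_filter, mem_filter] at hq hq'
    obtain ⟨i, hi, hi1, hi2⟩ := cross (S := S) hq.1.2.1 hq.1.1.2 hq.2.2 hq.1.2.2 hq.2.1
    obtain ⟨j, hj, hj1, hj2⟩ := cross (S := S) hq'.1.2.1 hq'.1.1.2 hq'.2.2 hq'.1.2.2 hq'.2.1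
    have hqE := hq.1.2.1
    have hqE' := hq'.1.2.1
    have hl := C.hlen _ _ hqE
    have hl' := C.hlen _ _ hqE'
    have hend : i + 1 = C.len q.1 q.2 := by
      rcases Nat.lt_or_ge (i+1) (C.len q.1 q.2) with h1 | h1
      · exfalso
        rcases Nat.lt_or_ge (j+1) (C.len q'.1 q'.2) with h1' | h1'
        · obtain ⟨e1, e2⟩ := C.hdisj _ _ _ _ (i+1) (j+1) hqE hqE' (by omega) h1 (by omega) h1'
            (by rw [hi2, hj2])
          exact hne (Prod.ext e1 e2)
        · have e : j + 1 = C.len q'.1 q'.2 := le_antisymm hj h1'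
          apply C.hint _ _ (i+1) q'.2 hqE (by omega) h1
          rw [hi2, ← C.h1 _ _ hqE', ← e, hj2]
      · exact le_antisymm hi h1
    have hphi : C.φ q.2 = (c+1) :: v := by rw [← C.h1 _ _ hqE, ← hend, hi2]
    refine ⟨?_, q.2, hq.2.1, hphi⟩
    intro hc0
    subst hc0
    have hend' : j + 1 = C.len q'.1 q'.2 := by
      rcases Nat.lt_or_ge (j+1) (C.len q'.1 q'.2) with h1' | h1'
      · exfalso
        apply C.hint _ _ (j+1) q.2 hqE' (by omega) h1'
        rw [hj2, hphi]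
      · exact le_antisymm hj h1'
    have hA := C.hA _ _ i hqE hi
    have hA' := C.hA _ _ j hqE' hj
    rw [hi2, zero_add] at hA
    rw [hj2, zero_add] at hA'
    have := C.P3 v _ _ (C.hV _ _ i hqE hi.le) (C.hV _ _ j hqE' hj.le) hA hA' hi1 hj1
    obtain ⟨e1, e2⟩ := C.hdisj _ _ _ _ i j hqE hqE' (by omega) hi (by omega) hj this
    exact hne (Prod.ext e1 e2)
  have key0 : (∃ s ∈ S, C.φ s = 0 :: v) → k ≤ (LV C v S).card + 1 := by
    intro h
    rcases key 0 h with h | h
    · exact h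
    · exact absurd rfl h.1
  have key1 : ∀ j : ℕ, ∀ c : Fin (m+2), c.val + j = m + 2 → (∃ s ∈ S, C.φ s = c :: v) →
      k ≤ (LV C v S).card + 1 := by
    intro j
    induction j with
    | zero => intro c hc; have := c.isLt; omega
    | succ j ih =>
      intro c hc hex
      rcases key c hex with h | ⟨h1, h2⟩
      · exact h
      · rcases Nat.lt_or_ge (c.val + 1) (m+2) with h3 | h3
        · apply ih (c+1) _ h2
          rw [Fin.val_add_one_of_lt' h3]
          omega
        · apply key0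
          have : c + 1 = 0 := by
            apply Fin.ext
            have hcl : c.val = m + 1 := by have := c.isLt; omega
            rw [Fin.val_add]
            simp [hcl]
          rwa [this] at h2
  obtain ⟨s, hs, c, hc⟩ := hS
  exact key1 (m + 2 - c.val) c (by have := c.isLt; omega) ⟨s, hs, hc⟩

/-- `L(S)` contains `L(K)` for a closed `K` -/
lemma LV_sub {a v : List (Fin (m+2))} {S K : Finset (Fin n)} {h : Fin n → Fin n → Prop}
    (hh : ∀ s t, h s t ↔ (s ∈ S ∧ t ∈ S ∧ C.E s t ∧ inside C a s t))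
    (hKS : K ⊆ S) (hK : Comp C h K) (hT : Top C h K v) : LV C v K ⊆ LV C a S := by
  intro q hq
  rw [mem_LV] at hq ⊢
  refine ⟨hKS hq.1, hq.2.1, ?_⟩
  rintro ⟨h1, h2⟩
  have hst : h q.1 q.2 := (hh _ _).2 ⟨hKS hq.1, h1, hq.2.1, h2⟩
  apply hq.2.2
  refine ⟨hK.cl _ hq.1 _ hst, ?_⟩
  intro i hi
  exact hT.sub _ ⟨q.1, hq.1, q.2, hst, i, hi, rfl⟩

open Classical in
lemma deg_le_LV {k : ℕ} (hdeg : ∀ s, k ≤ (univ.filter (C.E s)).card)
    {a : List (Fin (m+2))} {S : Finset (Fin n)} {s : Fin n} (hs : s ∈ S)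
    (hno : ∀ t, ¬ (s ∈ S ∧ t ∈ S ∧ C.E s t ∧ inside C a s t)) : k ≤ (LV C a S).card := by
  refine (hdeg s).trans ?_
  rw [← Finset.card_map ⟨fun t => (s, t), fun t t' h => (Prod.mk.inj h).2⟩]
  apply Finset.card_le_card
  intro q hq
  simp only [mem_map, mem_filter, mem_univ, true_and, Function.Embedding.coeFn_mk] at hq
  obtain ⟨t, ht, rfl⟩ := hq
  rw [mem_LV]
  refine ⟨hs, ht, ?_⟩
  rintro ⟨h1, h2⟩
  exact hno t ⟨hs, h1, ht, h2⟩

open Classical in
theorem Astar (k : ℕ) (hk : 2 ≤ k) (hdeg : ∀ s, k ≤ (univ.filter (C.E s)).card) :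
    ∀ j : ℕ, ∀ a : List (Fin (m+2)), C.L ≤ a.length + j → ∀ S : Finset (Fin n),
      (∃ s ∈ S, C.φ s = a) → (∀ s ∈ S, a <:+ C.φ s) → k ≤ (LV C a S).card := by
  have hdeg1 : ∀ s, ∃ t, C.E s t := by
    intro s
    have : 0 < (univ.filter (C.E s)).card := by have := hdeg s; omega
    obtain ⟨t, ht⟩ := Finset.card_pos.1 this
    exact ⟨t, (mem_filter.1 ht).2⟩
  have hVφ : ∀ s, C.V (C.φ s) := by
    intro s
    obtain ⟨t, ht⟩ := hdeg1 s
    rw [← C.h0 s t ht]; exact C.hV s t 0 ht (Nat.zero_le _)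
  intro j
  induction j with
  | zero =>
    rintro a ha S ⟨s, hs, rfl⟩ _
    have := C.hL _ (hVφ s)
    omega
  | succ j ih =>
    intro a ha S
    induction S using Finset.strongInduction with
    | H S ihS =>
    rintro ⟨s0, hs0, hs0a⟩ hS
    let h : Fin n → Fin n → Prop := fun s t => s ∈ S ∧ t ∈ S ∧ C.E s t ∧ inside C a s t
    by_cases hcase : ∃ s ∈ S, ∀ t, ¬ h s t
    · obtain ⟨s, hs, hno⟩ := hcase
      exact deg_le_LV hdeg hs hno
    push Not at hcase
    obtain ⟨K, hKS, hK⟩ := exists_comp C h (fun s t h => h.2.2.1) S ⟨s0, hs0⟩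
      (fun s _ t h => h.2.1) hcase
    have haF : ∀ x, FK C h K x → a <:+ x := by
      rintro x ⟨s, hs, t, hst, i, hi, rfl⟩
      exact hst.2.2.2 i hi
    obtain ⟨v, hav, hT⟩ := fact hK hdeg1 a haF
    have hva : ¬ v <:+ a := by
      intro hv
      exact hT.nB s0 (by rw [hs0a]; exact suffix_antisymm hav hv)
    set S' := S.filter (fun s => ¬ v <:+ C.φ s) with hS'
    have hs0' : s0 ∈ S' := by rw [hS', mem_filter, hs0a]; exact ⟨hs0, hva⟩
    have hssub : S' ⊂ S := by
      rw [Finset.ssubset_iff_of_subset (Finset.filter_subset _ _)]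
      obtain ⟨s, hs⟩ := hK.ne
      refine ⟨s, hKS hs, ?_⟩
      rw [mem_filter]
      rintro ⟨_, h2⟩
      exact h2 (hT.sub _ (FK_phi hK hs))
    have hind := ihS S' hssub ⟨s0, hs0', hs0a⟩ (fun s hs => hS s (hssub.1 hs))
    have hsplit := Finset.card_filter_add_card_filter_not (s := LV C a S') (fun q => q ∈ LV C a S)
    -- the arcs entering `T_v`
    have hW2 : ∀ q ∈ (LV C a S').filter (fun q => ¬ q ∈ LV C a S), C.E q.1 q.2 ∧
        ∃ i, 0 < i ∧ i < C.len q.1 q.2 ∧ C.p q.1 q.2 i = v ∧ q.2 ∈ K ∧ ∃ c, C.φ q.2 = c :: v := by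
      intro q hq
      rw [mem_filter, mem_LV, mem_LV, hS', mem_filter, mem_filter] at hq
      obtain ⟨⟨⟨hq1, hq1v⟩, hqE, hq3⟩, hq4⟩ := hq
      have h5 : q.2 ∈ S ∧ inside C a q.1 q.2 := by
        by_contra hcon
        exact hq4 ⟨hq1, hqE, hcon⟩
      have h6 : v <:+ C.φ q.2 := by
        by_contra hcon
        exact hq3 ⟨⟨h5.1, hcon⟩, h5.2⟩
      obtain ⟨i, hi, hi1, hi2⟩ := exists_step (fun i => v <:+ C.p q.1 q.2 i) (C.len q.1 q.2)
        (by rw [C.h0 _ _ hqE]; exact hq1v) (by rw [C.h1 _ _ hqE]; exact h6)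
      obtain ⟨e1, e2, e3, e4⟩ := hT.ent _ _ hqE i hi hi1 hi2
      exact ⟨hqE, i+1, by omega, e2, e1, e3, e4⟩
    have hW2card : ((LV C a S').filter (fun q => ¬ q ∈ LV C a S)).card ≤ 1 := by
      rw [Finset.card_le_one]
      intro q hq q' hq'
      obtain ⟨hE, i, hi0, hi1, hi2, -, -⟩ := hW2 q hq
      obtain ⟨hE', j, hj0, hj1, hj2, -, -⟩ := hW2 q' hq'
      obtain ⟨e1, e2⟩ := C.hdisj _ _ _ _ i j hE hE' hi0 hi1 hj0 hj1 (by rw [hi2, hj2])
      exact Prod.ext e1 e2
    have hW1sub : (LV C a S').filter (fun q => q ∈ LV C a S) ⊆ LV C a S :=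
      fun q hq => (mem_filter.1 hq).2
    by_cases hW2e : ((LV C a S').filter (fun q => ¬ q ∈ LV C a S)) = ∅
    · rw [hW2e, Finset.card_empty] at hsplit
      have := Finset.card_le_card hW1sub
      omega
    · obtain ⟨q, hq⟩ := Finset.nonempty_iff_ne_empty.2 hW2e
      obtain ⟨hE, i, hi0, hi1, hi2, hqK, c, hc⟩ := hW2 q hq
      have hB := Bstar (C := C) k v (fun c S hS1 hS2 => ih (c :: v) (by
        have := hav.length_le
        simp only [List.length_cons]; omega) S hS1 hS2) K ⟨q.2, hqK, c, hc⟩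
      have hsub1 : LV C v K ⊆ LV C a S := LV_sub (h := h) (fun s t => Iff.rfl) hKS hK hT
      have hdis : Disjoint (LV C v K) ((LV C a S').filter (fun q => q ∈ LV C a S)) := by
        rw [Finset.disjoint_left]
        intro q' h1 h2
        rw [mem_LV] at h1
        rw [mem_filter, mem_LV, hS', mem_filter] at h2
        exact h2.1.1.2 (hT.sub _ (FK_phi hK h1.1))
      have hun := Finset.card_le_card (Finset.union_subset hsub1 hW1sub)
      rw [Finset.card_union_of_disjoint hdis] at hun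
      omega

open Classical in
theorem final (hn : 0 < n) (hdeg : ∀ s, 3 ≤ (univ.filter (C.E s)).card) : False := by
  have hdeg1 : ∀ s, ∃ t, C.E s t := by
    intro s
    have : 0 < (univ.filter (C.E s)).card := by have := hdeg s; omega
    obtain ⟨t, ht⟩ := Finset.card_pos.1 this
    exact ⟨t, (mem_filter.1 ht).2⟩
  have hB : ∀ (v : List (Fin (m+2))) (S : Finset (Fin n)), (∃ s ∈ S, ∃ c, C.φ s = c :: v) →
      3 ≤ (LV C v S).card + 1 := by
    intro v S hS
    exact Bstar (C := C) 3 v (fun c S hS1 hS2 => Astar (C := C) 3 (by norm_num) hdeg C.L (c :: v)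
      (by omega) S hS1 hS2) S hS
  obtain ⟨K, -, hK⟩ := exists_comp C C.E (fun s t h => h) univ ⟨⟨0, hn⟩, mem_univ _⟩
    (fun s _ t _ => mem_univ _) (fun s _ => hdeg1 s)
  obtain ⟨v, -, hT⟩ := fact hK hdeg1 [] (fun x _ => List.nil_suffix)
  have hclosed : ∀ s ∈ K, ∀ t, C.E s t → t ∈ K ∧ inside C v s t := by
    intro s hs t hst
    refine ⟨hK.cl s hs t hst, ?_⟩
    intro i hi
    exact hT.sub _ ⟨s, hs, t, hst, i, hi, rfl⟩
  have hLV : LV C v K = ∅ := by
    rw [Finset.eq_empty_iff_forall_notMem]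
    intro q hq
    rw [mem_LV] at hq
    exact hq.2.2 (hclosed _ hq.1 _ hq.2.1)
  have hnch : ∀ c s, C.φ s ≠ c :: v := by
    intro c s hs
    have hF := hT.ch c
    rw [← hs] at hF
    have hsK := mem_of_FK_phi hK hF
    have := hB v K ⟨s, hsK, c, hs⟩
    rw [hLV, Finset.card_empty] at this
    omega
  obtain ⟨s0, hs0⟩ := hK.ne
  obtain ⟨c, hc⟩ := suffix_cons_of_proper (hT.sub _ (FK_phi hK hs0)) (hT.nB s0)
  set Kc := K.filter (fun s => (c :: v) <:+ C.φ s) with hKc
  have hcard : (LV C (c :: v) Kc).card ≤ 1 := by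
    rw [Finset.card_le_one]
    have aux : ∀ q ∈ LV C (c :: v) Kc, C.E q.1 q.2 ∧ ∃ i, 0 < i ∧ i < C.len q.1 q.2 ∧
        C.p q.1 q.2 i = (c+1) :: v := by
      intro q hq
      rw [mem_LV, hKc, mem_filter, mem_filter] at hq
      obtain ⟨⟨hq1, hq2⟩, hqE, hq3⟩ := hq
      obtain ⟨hq4, hq5⟩ := hclosed _ hq1 _ hqE
      obtain ⟨i, hi, hi1, hi2⟩ := cross (S := K) hqE hq2 hq5 hq3 hq4
      refine ⟨hqE, i+1, by omega, ?_, hi2⟩
      rcases Nat.lt_or_ge (i+1) (C.len q.1 q.2) with h1 | h1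
      · exact h1
      · exfalso
        have e : i + 1 = C.len q.1 q.2 := le_antisymm hi h1
        rw [e, C.h1 _ _ hqE] at hi2
        exact hnch _ _ hi2
    intro q hq q' hq'
    obtain ⟨hE, i, hi0, hi1, hi2⟩ := aux q hq
    obtain ⟨hE', j, hj0, hj1, hj2⟩ := aux q' hq'
    obtain ⟨e1, e2⟩ := C.hdisj _ _ _ _ i j hE hE' hi0 hi1 hj0 hj1 (by rw [hi2, hj2])
    exact Prod.ext e1 e2
  let h : Fin n → Fin n → Prop := fun s t => s ∈ Kc ∧ t ∈ Kc ∧ C.E s t ∧ inside C (c :: v) s t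
  have hs0c : s0 ∈ Kc := by rw [hKc, mem_filter]; exact ⟨hs0, hc⟩
  have hout : ∀ s ∈ Kc, ∃ t, h s t := by
    intro s hs
    by_contra hcon
    push Not at hcon
    have := deg_le_LV hdeg hs hcon
    omega
  obtain ⟨K', hK'sub, hK'⟩ := exists_comp C h (fun s t h => h.2.2.1) Kc ⟨s0, hs0c⟩
      (fun s _ t h => h.2.1) hout
  obtain ⟨v', hvv', hT'⟩ := fact hK' hdeg1 (c :: v) (by
    rintro x ⟨s, hs, t, hst, i, hi, rfl⟩
    exact hst.2.2.2 i hi)
  have hK'K : ∀ s ∈ K', s ∈ K := fun s hs => (mem_filter.1 (hK'sub hs)).1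
  have hent : ∃ t ∈ K', ∃ c', C.φ t = c' :: v' := by
    by_contra hcon
    have hsc := SC hK (fun x => ¬ v' <:+ x) (by
      intro s hs t hst i hi hY hY2
      obtain ⟨-, -, h3, h4⟩ := hT'.ent s t hst i hi hY hY2
      exact hcon ⟨t, h3, h4⟩)
    rcases hsc with hsc | hsc
    · have h1 := hsc _ (hT.ch (c+1))
      rw [not_not] at h1
      have h2 := hvv'.trans h1
      have h3 := h2.eq_of_length (by simp)
      simp only [List.cons.injEq, and_true] at h3
      have h4 : (1 : Fin (m+2)) = 0 := by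
        have : c + 0 = c + 1 := by rw [add_zero]; exact h3
        exact (add_left_cancel this).symm
      exact absurd h4 (by simp)
    · obtain ⟨s, hs⟩ := hK'.ne
      exact hsc _ (FK_phi hK (hK'K s hs)) (hT'.sub _ (FK_phi hK' hs))
  obtain ⟨t, ht, c', hc'⟩ := hent
  have h1 := hB v' K' ⟨t, ht, c', hc'⟩
  have h2 := Finset.card_le_card (LV_sub (h := h) (fun s t => Iff.rfl) hK'sub hK' hT')
  omega

end Pool.Agent.Lib_helper57.Subdiv
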