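import Mathlib
import Pool.Agent.Lib_helper57.Subdiv.Core

set_option autoImplicit false

/-!
# Subdividing every arc: the digraphs of the counterexample

With `N = m + 2`: the nodes of a rooted tree are written as lists of moves in `Fin N` (last move
first), the move `0` is special.  A branch stops as soon as it contains `N` non-special moves
(type 1) or its last `N` moves are special (type 2).  Every internal node sends arcs to its `N`
children; a leaf sends arcs to the cyclic successors `(c+1) :: z` of the nodes `c :: z` on its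
branch, where for type 1 `c` runs over the `N` non-special moves and for type 2 over the last
`N` (special) moves.  All out-degrees are at least `N`, but no subdivision of a digraph of minimum
out-degree at least three with all paths of length at least two is contained in it.
-/

namespace Pool.Agent.Lib_helper57.Subdiv

open Finset

variable {m : ℕ}

/-- number of non-special moves -/
def nz (x : List (Fin (m+2))) : ℕ := x.countP (fun c => decide (c ≠ 0))

/-- the last `m+2` moves are all special -/
def zrun (x : List (Fin (m+2))) : Prop := m + 2 ≤ x.length ∧ ∀ c ∈ x.take (m+2), c = 0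

def stop (x : List (Fin (m+2))) : Prop := m + 2 ≤ nz x ∨ zrun x

/-- the vertices of the digraph -/
def InV (x : List (Fin (m+2))) : Prop := ∀ y, y <:+ x → y ≠ x → ¬ stop y

/-- the arcs of the digraph -/
def Arc (x y : List (Fin (m+2))) : Prop :=
  (¬ stop x ∧ ∃ c, y = c :: x) ∨
  (m + 2 ≤ nz x ∧ ∃ c z, c ≠ 0 ∧ (c :: z) <:+ x ∧ y = (c+1) :: z) ∨
  (zrun x ∧ ∃ z, (0 :: z) <:+ x ∧ x.length ≤ z.length + (m+2) ∧ y = 1 :: z)

lemma arc_cases {x y : List (Fin (m+2))} (h : Arc x y) :
    (¬ stop x ∧ ∃ c, y = c :: x) ∨ (∃ c z, (c :: z) <:+ x ∧ y = (c+1) :: z) := by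
  rcases h with h | ⟨-, c, z, -, h2, h3⟩ | ⟨-, z, h1, -, h3⟩
  · exact Or.inl h
  · exact Or.inr ⟨c, z, h2, h3⟩
  · exact Or.inr ⟨0, z, h1, by rw [h3, zero_add]⟩

lemma succ_ne (c : Fin (m+2)) : c + 1 ≠ c := by
  intro h
  have h4 : (1 : Fin (m+2)) = 0 := by
    have : c + 1 = c + 0 := by rw [add_zero]; exact h
    exact add_left_cancel this
  exact absurd h4 (by simp)

lemma arc_P1 (a x y : List (Fin (m+2))) (h : Arc x y) (h1 : a <:+ y) (h2 : ¬ a <:+ x) : y = a := by
  rcases arc_cases h with ⟨-, c, rfl⟩ | ⟨c, z, h3, rfl⟩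
  · rcases List.suffix_cons_iff.1 h1 with h4 | h4
    · exact h4.symm
    · exact absurd h4 h2
  · rcases List.suffix_cons_iff.1 h1 with h4 | h4
    · exact h4.symm
    · exact absurd (h4.trans ((List.suffix_cons c z).trans h3)) h2

lemma arc_P2 (c : Fin (m+2)) (v x y : List (Fin (m+2))) (h : Arc x y) (h1 : (c :: v) <:+ x)
    (h2 : v <:+ y) (h3 : ¬ (c :: v) <:+ y) : y = (c+1) :: v := by
  rcases arc_cases h with ⟨-, d, rfl⟩ | ⟨d, z, h4, rfl⟩
  · exact absurd (h1.trans (List.suffix_cons _ _)) h3
  · rcases List.suffix_cons_iff.1 h2 with h5 | h5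
    · exfalso
      subst h5
      have h6 : ((d+1) :: z) <:+ x := (List.suffix_cons _ _).trans h1
      have h7 := suffix_eq_of_length h6 h4 (by simp)
      simp only [List.cons.injEq, and_true] at h7
      exact succ_ne _ h7
    · rcases Nat.lt_or_ge v.length z.length with h6 | h6
      · exfalso
        apply h3
        have h7 : (c :: v) <:+ z :=
          suffix_comp h1 ((List.suffix_cons _ _).trans h4) (by simp only [List.length_cons]; omega)
        exact h7.trans (List.suffix_cons _ _)
      · have h7 : v = z := h5.eq_of_length (le_antisymm h5.length_le h6)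
        subst h7
        have h8 := suffix_eq_of_length h1 h4 (by simp)
        simp only [List.cons.injEq, and_true] at h8
        rw [h8]

lemma arc_P2' (v x y : List (Fin (m+2))) (h : Arc x y) (h1 : v <:+ x) : y ≠ v := by
  rintro rfl
  rcases arc_cases h with ⟨-, d, rfl⟩ | ⟨d, z, h4, rfl⟩
  · have := h1.length_le
    simp at this
  · have h7 := suffix_eq_of_length h1 h4 (by simp)
    simp only [List.cons.injEq, and_true] at h7
    exact succ_ne _ h7

lemma arc_P4 (v x z : List (Fin (m+2))) (h : Arc v x) (hz : InV z) (h1 : v <:+ z) (h2 : z ≠ v) :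
    ∃ c, x = c :: v := by
  have hns : ¬ stop v := hz v h1 (Ne.symm h2)
  rcases h with ⟨-, h⟩ | ⟨h, -⟩ | ⟨h, -⟩
  · exact h
  · exact absurd (Or.inl h) hns
  · exact absurd (Or.inr h) hns

lemma arc_type2 {v x : List (Fin (m+2))} (h : Arc x (1 :: v)) (h0 : (0 :: v) <:+ x) :
    stop x ∧ ∃ r, x = List.replicate r 0 ++ v := by
  rcases h with ⟨-, c, h⟩ | ⟨-, c, z, hc, -, h⟩ | ⟨hz, z, h1, h2, h⟩
  · exfalso
    have := h0.length_le
    simp only [List.cons.injEq] at h
    rw [h.2] at this
    simp at this
  · exfalso
    simp only [List.cons.injEq] at h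
    apply hc
    have : (0 : Fin (m+2)) + 1 = c + 1 := by rw [zero_add]; exact h.1
    exact (add_right_cancel this).symm
  · simp only [List.cons.injEq, true_and] at h
    subst h
    refine ⟨Or.inr hz, ?_⟩
    obtain ⟨w, hw⟩ := (List.suffix_cons _ _).trans h1
    refine ⟨w.length, ?_⟩
    have hwl : w.length ≤ m + 2 := by
      rw [← hw, List.length_append] at h2; omega
    rw [← hw]
    congr 1
    rw [List.eq_replicate_iff]
    refine ⟨rfl, ?_⟩
    intro c hc
    apply hz.2 c
    rw [← hw, List.take_append, List.take_of_length_le hwl]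
    exact List.mem_append_left _ hc

lemma arc_P3 (v x x' : List (Fin (m+2))) (hV : InV x) (hV' : InV x')
    (h : Arc x (1 :: v)) (h' : Arc x' (1 :: v)) (h0 : (0 :: v) <:+ x) (h0' : (0 :: v) <:+ x') :
    x = x' := by
  obtain ⟨hs, r, hr⟩ := arc_type2 h h0
  obtain ⟨hs', r', hr'⟩ := arc_type2 h' h0'
  have suf : ∀ a b : ℕ, a ≤ b → (List.replicate a (0 : Fin (m+2)) ++ v) <:+ (List.replicate b 0 ++ v) := by
    intro a b hab
    obtain ⟨d, rfl⟩ := Nat.exists_eq_add_of_le' hab
    rw [List.replicate_add, List.append_assoc]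
    exact List.suffix_append _ _
  rcases Nat.le_total r r' with hrr | hrr
  · by_contra hne
    exact hV' x (by rw [hr, hr']; exact suf _ _ hrr) hne hs
  · by_contra hne
    exact hV x' (by rw [hr, hr']; exact suf _ _ hrr) (Ne.symm hne) hs'

lemma nonstop_form (y : List (Fin (m+2))) (h : ∀ z, z <:+ y → ¬ stop z) :
    ∃ r w, r < m + 2 ∧ y = List.replicate r 0 ++ w ∧ w.length ≤ (m+2) * nz y := by
  induction y with
  | nil => exact ⟨0, [], by omega, by simp, by simp⟩
  | cons c z ih =>
    obtain ⟨r, w, hr, hz, hw⟩ := ih (fun u hu => h u (hu.trans (List.suffix_cons _ _)))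
    by_cases hc : c = 0
    · subst hc
      have hy : (0 : Fin (m+2)) :: z = List.replicate (r+1) 0 ++ w := by
        rw [hz, List.replicate_succ]; simp
      refine ⟨r+1, w, ?_, hy, ?_⟩
      · by_contra hcon
        have hr1 : r + 1 = m + 2 := by omega
        apply h _ List.suffix_rfl
        right
        rw [hr1] at hy
        rw [hy]
        refine ⟨by simp, ?_⟩
        intro c hc
        rw [List.take_append, List.length_replicate] at hc
        simp at hc
        exact hc
      · simpa [nz] using hw
    · refine ⟨0, c :: z, by omega, by simp, ?_⟩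
      have : nz (c :: z) = nz z + 1 := by simp [nz, hc]
      rw [this, List.length_cons, hz, List.length_append, List.length_replicate]
      rw [← hz]
      nlinarith

lemma InV_length {x : List (Fin (m+2))} (h : InV x) :
    x.length < (m+2) * (m+2) + (m+2) + 1 := by
  rcases x with _ | ⟨c, z⟩
  · simp
  · have hz : ∀ u, u <:+ z → ¬ stop u := by
      intro u hu
      apply h u (hu.trans (List.suffix_cons _ _))
      rintro rfl
      have := hu.length_le
      simp at this
    obtain ⟨r, w, hr, hzw, hw⟩ := nonstop_form z hz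
    have hn : nz z < m + 2 := by
      by_contra hcon
      exact hz z List.suffix_rfl (Or.inl (by omega))
    have hl : z.length = r + w.length := by
      conv_lhs => rw [hzw]
      simp
    rw [List.length_cons, hl]
    have : (m+2) * nz z ≤ (m+2) * (m+1) := Nat.mul_le_mul_left _ (by omega)
    nlinarith

lemma InV_head {x z : List (Fin (m+2))} {c d : Fin (m+2)} (h : InV x) (hz : (c :: z) <:+ x) :
    InV (d :: z) := by
  intro y hy hne
  rcases List.suffix_cons_iff.1 hy with h1 | h1
  · exact absurd h1 hne
  · apply h y (h1.trans ((List.suffix_cons _ _).trans hz))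
    rintro rfl
    have h2 := hz.length_le
    have h3 := h1.length_le
    simp only [List.length_cons] at h2
    omega

lemma InV_child {x : List (Fin (m+2))} (d : Fin (m+2)) (h : InV x) (hs : ¬ stop x) :
    InV (d :: x) := by
  intro y hy hne
  rcases List.suffix_cons_iff.1 hy with h1 | h1
  · exact absurd h1 hne
  · by_cases h2 : y = x
    · rw [h2]; exact hs
    · exact h y h1 h2

lemma exists_nz_heads (x : List (Fin (m+2))) : ∃ T : Finset (List (Fin (m+2))), nz x ≤ T.card ∧
    ∀ y ∈ T, y.length ≤ x.length ∧ ∃ c z, c ≠ 0 ∧ (c :: z) <:+ x ∧ y = (c+1) :: z := by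
  classical
  induction x with
  | nil => exact ⟨∅, by simp [nz], by simp⟩
  | cons c z ih =>
    obtain ⟨T, hT, hT2⟩ := ih
    by_cases hc : c = 0
    · refine ⟨T, ?_, ?_⟩
      · have : nz (c :: z) = nz z := by simp [nz, hc]
        omega
      · intro y hy
        obtain ⟨h1, d, w, h2, h3, h4⟩ := hT2 y hy
        exact ⟨by simp only [List.length_cons]; omega, d, w, h2, h3.trans (List.suffix_cons _ _), h4⟩
    · refine ⟨insert ((c+1) :: z) T, ?_, ?_⟩
      · rw [Finset.card_insert_of_notMem]
        · have : nz (c :: z) = nz z + 1 := by simp [nz, hc]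
          omega
        · intro hmem
          have := (hT2 _ hmem).1
          simp at this
      · intro y hy
        rw [Finset.mem_insert] at hy
        rcases hy with rfl | hy
        · exact ⟨by simp, c, z, hc, List.suffix_rfl, rfl⟩
        · obtain ⟨h1, d, w, h2, h3, h4⟩ := hT2 y hy
          exact ⟨by simp only [List.length_cons]; omega, d, w, h2, h3.trans (List.suffix_cons _ _), h4⟩

lemma exists_heads {x : List (Fin (m+2))} (hx : InV x) :
    ∃ T : Finset (List (Fin (m+2))), m + 2 ≤ T.card ∧ ∀ y ∈ T, InV y ∧ Arc x y := by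
  classical
  by_cases hs : stop x
  · rcases hs with hs | hs
    · obtain ⟨T, hT, hT2⟩ := exists_nz_heads x
      refine ⟨T, by omega, ?_⟩
      intro y hy
      obtain ⟨-, c, z, h2, h3, rfl⟩ := hT2 y hy
      exact ⟨InV_head hx h3, Or.inr (Or.inl ⟨hs, c, z, h2, h3, rfl⟩)⟩
    · refine ⟨(Finset.range (m+2)).image (fun j => 1 :: x.drop (j+1)), ?_, ?_⟩
      · rw [Finset.card_image_of_injOn, Finset.card_range]
        intro i hi j hj hij
        simp only [List.cons.injEq, true_and] at hij
        have h1 := congrArg List.length hij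
        simp only [List.length_drop] at h1
        have h2 := hs.1
        simp only [coe_range, Set.mem_Iio] at hi hj
        omega
      · intro y hy
        rw [Finset.mem_image] at hy
        obtain ⟨j, hj, rfl⟩ := hy
        rw [Finset.mem_range] at hj
        have hjl : j < x.length := by have := hs.1; omega
        have h0 : x[j] = 0 := by
          apply hs.2
          rw [List.mem_take_iff_getElem]
          exact ⟨j, by omega, rfl⟩
        have hsuf : (0 :: x.drop (j+1)) <:+ x := by
          have := List.drop_eq_getElem_cons hjl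
          rw [h0] at this
          rw [← this]
          exact List.drop_suffix _ _
        refine ⟨InV_head hx hsuf, Or.inr (Or.inr ⟨hs, _, hsuf, ?_, rfl⟩)⟩
        rw [List.length_drop]; omega
  · refine ⟨Finset.univ.image (fun c : Fin (m+2) => c :: x), ?_, ?_⟩
    · rw [Finset.card_image_of_injective]
      · simp
      · intro c d h
        simpa using h
    · intro y hy
      rw [Finset.mem_image] at hy
      obtain ⟨c, -, rfl⟩ := hy
      exact ⟨InV_child c hx hs, Or.inl ⟨hs, c, rfl⟩⟩

lemma not_stop_nil : ¬ stop ([] : List (Fin (m+2))) := by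
  rintro (h | h)
  · simp [nz] at h
  · have := h.1
    simp at this

/-- the vertex type -/
abbrev Vx (m : ℕ) := {x : List (Fin (m+2)) // InV x}

instance : Finite (Vx m) := by
  have h := List.finite_length_le (Fin (m+2)) ((m+2) * (m+2) + (m+2) + 1)
  exact (h.subset (fun x (hx : InV x) => (InV_length hx).le)).to_subtype

instance : Nonempty (Vx m) := ⟨⟨[], by
  intro y hy hne
  exact absurd (List.suffix_nil.1 hy) hne⟩⟩

/-- the digraph -/
def Dg (m : ℕ) : Digraph (Vx m) where
  Adj x y := Arc x.1 y.1

lemma Dg_loopless (v : Vx m) : ¬ (Dg m).Adj v v := by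
  intro h
  exact arc_P2' v.1 v.1 v.1 h List.suffix_rfl rfl

lemma Dg_deg (v : Vx m) : m + 2 ≤ Nat.card {w // (Dg m).Adj v w} := by
  obtain ⟨T, hT, hT2⟩ := exists_heads v.2
  refine hT.trans ?_
  have : Nat.card T = T.card := by simp
  rw [← this]
  apply Nat.card_le_card_of_injective
    (fun y : T => (⟨⟨y.1, (hT2 y.1 y.2).1⟩, (hT2 y.1 y.2).2⟩ : {w // (Dg m).Adj v w}))
  intro y y' h
  simp only [Subtype.mk.injEq] at h
  exact Subtype.ext h

theorem no_subdivision (m : ℕ) (n : ℕ) (D' : Digraph (Fin n)) (hn : 0 < n)
    (hdeg : ∀ a, 3 ≤ Nat.card {b // D'.Adj a b})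
    (φ : Fin n → Vx m) (hφ : Function.Injective φ) (len : Fin n → Fin n → ℕ)
    (p : Fin n → Fin n → ℕ → Vx m)
    (h1 : ∀ a b, D'.Adj a b →
      2 ≤ len a b ∧ p a b 0 = φ a ∧ p a b (len a b) = φ b ∧
      (∀ i, i < len a b → (Dg m).Adj (p a b i) (p a b (i + 1))) ∧
      (∀ i c, 0 < i → i < len a b → p a b i ≠ φ c))
    (h2 : ∀ a b c d i j, D'.Adj a b → D'.Adj c d →
      0 < i → i < len a b → 0 < j → j < len c d →
      p a b i = p c d j → a = c ∧ b = d ∧ i = j) : False := by
  classical
  let C : Cfg m n :=
    { V := InV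
      A := Arc
      L := (m+2) * (m+2) + (m+2) + 1
      hL := fun x hx => InV_length hx
      P1 := fun a x y _ _ h => arc_P1 a x y h
      P2 := fun c v x y _ _ h => arc_P2 c v x y h
      P2' := fun v x y _ _ h => arc_P2' v x y h
      P3 := fun v x x' hx hx' h => arc_P3 v x x' hx hx' h
      P4 := fun v x z _ _ hz h => arc_P4 v x z h hz
      E := D'.Adj
      φ := fun s => (φ s).1
      φinj := fun s t h => hφ (Subtype.ext h)
      len := len
      p := fun s t i => (p s t i).1
      hV := fun s t i _ _ => (p s t i).2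
      hlen := fun s t h => (h1 s t h).1
      h0 := fun s t h => congrArg Subtype.val (h1 s t h).2.1
      h1 := fun s t h => congrArg Subtype.val (h1 s t h).2.2.1
      hA := fun s t i h hi => (h1 s t h).2.2.2.1 i hi
      hint := fun s t i c h hi hi2 he => (h1 s t h).2.2.2.2 i c hi hi2 (Subtype.ext he)
      hdisj := fun a b c d i j hab hcd hi hi2 hj hj2 he => by
        have := h2 a b c d i j hab hcd hi hi2 hj hj2 (Subtype.ext he)
        exact ⟨this.1, this.2.1⟩ }
  apply final (C := C) hn
  intro s
  have := hdeg s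
  rw [Nat.card_eq_fintype_card, Fintype.card_subtype] at this
  exact this

end Pool.Agent.Lib_helper57.Subdiv
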